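import Mathlib

set_option autoImplicit false

namespace Pool.Agent.H.MP_908eba_al

open Module

theorem fin_of_rigid {P M M' I : Type} [AddCommGroup P] [Module ℝ P] [AddCommGroup M] [Module ℝ M]
    [AddCommGroup M'] [Module ℝ M'] [FiniteDimensional ℝ P] [FiniteDimensional ℝ M]
    (Ξ : I → P →ₗ[ℝ] M →ₗ[ℝ] M') (p : I → P) (h1 : ∀ i, Function.Injective (Ξ i (p i)))
    (h2 : ∀ i j, i ≠ j → ¬ Function.Injective (Ξ i (p j))) : Finite I := by
  classical
  choose Λ hΛ using fun i =>
    LinearMap.exists_leftInverse_of_injective (Ξ i (p i)) (LinearMap.ker_eq_bot.2 (h1 i))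
  let b := Module.finBasis ℝ M
  let S : Submodule ℝ (P → ℝ) := LinearMap.range
    ({ toFun := fun f => f, map_add' := fun _ _ => rfl, map_smul' := fun _ _ => rfl } :
      Dual ℝ P →ₗ[ℝ] (P → ℝ))
  have hS : S.FG := Submodule.fg_range _
  have hp : ∀ (s : Finset (Fin (finrank ℝ M))) (f : Fin (finrank ℝ M) → P → ℝ),
      (∀ k, f k ∈ S) → ∏ k ∈ s, f k ∈ S ^ s.card := by
    intro s f hf
    induction s using Finset.induction_on with
    | empty => simp [Submodule.one_eq_span]
    | insert a s ha ih =>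
      rw [Finset.prod_insert ha, Finset.card_insert_of_notMem ha, pow_succ']
      exact Submodule.mul_mem_mul (hf a) ih
  have hf : ∀ i, (fun x => LinearMap.det (Λ i ∘ₗ Ξ i x)) ∈
      S ^ (Finset.univ : Finset (Fin (finrank ℝ M))).card := by
    intro i
    have : (fun x => LinearMap.det (Λ i ∘ₗ Ξ i x)) = ∑ σ : Equiv.Perm (Fin (finrank ℝ M)),
        ((Equiv.Perm.sign σ : ℤ) : ℝ) •
          ∏ k, fun x => LinearMap.toMatrix b b (Λ i ∘ₗ Ξ i x) (σ k) k := by
      ext x
      rw [← LinearMap.det_toMatrix b, Matrix.det_apply']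
      simp
    rw [this]
    refine Submodule.sum_mem _ fun σ _ => Submodule.smul_mem _ _ (hp _ _ fun k => ⟨
      { toFun := fun x => LinearMap.toMatrix b b (Λ i ∘ₗ Ξ i x) (σ k) k
        map_add' := fun x y => by simp [LinearMap.comp_add]
        map_smul' := fun c x => by simp [LinearMap.comp_smul] }, rfl⟩)
  have : Module.Finite ℝ ↥(S ^ (Finset.univ : Finset (Fin (finrank ℝ M))).card) :=
    Module.Finite.iff_fg.2 (hS.pow _)
  refine LinearIndependent.finite (R := ℝ)
    (f := fun i => (⟨_, hf i⟩ : ↥(S ^ (Finset.univ : Finset (Fin (finrank ℝ M))).card))) ?_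
  refine LinearIndependent.of_pairwise_dual_eq_zero_one _
    (fun i => (LinearMap.proj (p i)) ∘ₗ Submodule.subtype _) (fun i j hij => ?_) fun i => ?_
  · change LinearMap.det (Λ j ∘ₗ Ξ j (p i)) = 0
    rw [LinearMap.det_eq_zero_iff_ker_ne_bot]
    intro h
    exact h2 j i hij.symm (Function.Injective.of_comp (f := Λ j) (LinearMap.ker_eq_bot.1 h))
  · change LinearMap.det (Λ i ∘ₗ Ξ i (p i)) = 1
    rw [hΛ, LinearMap.det_id]

theorem ext_lin {G V W κ : Type} [AddCommGroup G] [AddCommGroup V] [Module ℝ V] [AddCommGroup W]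
    [Module ℝ W] (b : Basis κ ℝ V) (φ : G →+ V) (ψ : G →+ W)
    (h1 : ∀ g, φ g ∈ Submodule.span ℤ (Set.range b)) (h2 : ∀ g, φ g = 0 → ψ g = 0) :
    ∃ T : V →ₗ[ℝ] W, ∀ g, T (φ g) = ψ g := by
  let _ : DivisibleBy W ℤ :=
    ⟨fun a n => (n : ℝ)⁻¹ • a, fun a => by simp, fun {n} a hn => by
      rw [← Int.cast_smul_eq_zsmul ℝ, smul_smul, mul_inv_cancel₀ (by exact_mod_cast hn), one_smul]⟩
  obtain ⟨h, hh⟩ := (Module.Baer.of_divisible W).extension_property_addMonoidHom
    (QuotientAddGroup.kerLift φ) (QuotientAddGroup.kerLift_injective φ)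
    (QuotientAddGroup.lift φ.ker ψ h2)
  refine ⟨b.constr ℝ fun k => h (b k), fun g => ?_⟩
  have : ∀ v ∈ Submodule.span ℤ (Set.range b), b.constr ℝ (fun k => h (b k)) v = h v := by
    intro v hv
    induction hv using Submodule.span_induction with
    | mem x hx => obtain ⟨k, rfl⟩ := hx; simp
    | zero => simp
    | add x y _ _ a c => rw [map_add, map_add, a, c]
    | smul n x _ a => rw [map_zsmul, map_zsmul, a]
  rw [this _ (h1 g)]
  exact DFunLike.congr_fun hh (g : G ⧸ φ.ker)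

end Pool.Agent.H.MP_908eba_al
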