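import Mathlib
import Pool.Agent.H.MP_908eba_al.A

set_option autoImplicit false

namespace Pool.Agent.H.MP_908eba_al

open Module

structure Rl (Γ V ι : Type) [Group Γ] [AddCommGroup V] [Module ℝ V] (B : V →ₗ[ℝ] V →ₗ[ℝ] ℝ) where
  A : Γ →* End ℝ V
  t : Γ → V
  t_mul : ∀ g h, t (g * h) = t g + A g (t h)
  inj : ∀ g h, A g = A h → t g = t h → g = h
  b : Basis ι ℝ V
  lat : ∀ w, (∃ g, A g = 1 ∧ t g = w) ↔ w ∈ Submodule.span ℤ (Set.range b)
  orth : ∀ g v w, B (A g v) (A g w) = B v w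

variable {Γ V ι : Type} [Group Γ] [AddCommGroup V] [Module ℝ V] {B : V →ₗ[ℝ] V →ₗ[ℝ] ℝ}

namespace Rl

variable (R S T : Rl Γ V ι B)

theorem t_one : R.t 1 = 0 := by simpa using R.t_mul 1 1

theorem t_add {g h : Γ} (hg : R.A g = 1) : R.t (g * h) = R.t g + R.t h := by
  simp [R.t_mul, hg]

theorem comm {g h : Γ} (hg : R.A g = 1) (hh : R.A h = 1) : g * h = h * g :=
  R.inj _ _ (by simp [hg, hh]) (by rw [R.t_add hg, R.t_add hh, add_comm])

theorem A_inv {g : Γ} (hg : R.A g = 1) : R.A g⁻¹ = 1 := by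
  have := R.A.map_mul g g⁻¹
  rwa [mul_inv_cancel, map_one, hg, one_mul, eq_comm] at this

theorem A_conj (g : Γ) {h : Γ} (hh : R.A h = 1) : R.A (g * h * g⁻¹) = 1 := by
  rw [map_mul, map_mul, hh, mul_one, ← map_mul, mul_inv_cancel, map_one]

theorem t_conj (g : Γ) {h : Γ} (hh : R.A h = 1) : R.t (g * h * g⁻¹) = R.A g (R.t h) := by
  have := R.t_mul (g * h * g⁻¹) g
  rw [inv_mul_cancel_right, R.t_mul, R.A_conj g hh] at this
  simpa [add_comm] using this.symm

theorem t_inv {g : Γ} (hg : R.A g = 1) : R.t g⁻¹ = -R.t g := by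
  have := R.t_add (h := g⁻¹) hg
  rw [mul_inv_cancel, R.t_one] at this
  exact eq_neg_of_add_eq_zero_right this.symm

theorem A_comm1 (g : Γ) {h : Γ} (hh : R.A h = 1) : R.A (g * h * g⁻¹ * h⁻¹) = 1 := by
  rw [map_mul, R.A_conj g hh, R.A_inv hh, mul_one]

theorem A_comm2 {g : Γ} (h : Γ) (hg : R.A g = 1) : R.A (g * h * g⁻¹ * h⁻¹) = 1 := by
  rw [show g * h * g⁻¹ * h⁻¹ = g * (h * g⁻¹ * h⁻¹) by group, map_mul, hg,
    R.A_conj h (R.A_inv hg), mul_one]

theorem t_comm (g : Γ) {h : Γ} (hh : R.A h = 1) :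
    R.t (g * h * g⁻¹ * h⁻¹) = (R.A g - 1) (R.t h) := by
  rw [R.t_add (R.A_conj g hh), R.t_conj g hh, R.t_inv hh]
  simp [sub_eq_add_neg]

theorem ex (k : ι) : ∃ g, R.A g = 1 ∧ R.t g = R.b k :=
  (R.lat _).2 (Submodule.subset_span ⟨k, rfl⟩)

noncomputable def u (k : ι) : Γ := (R.ex k).choose
theorem uA (k : ι) : R.A (R.u k) = 1 := (R.ex k).choose_spec.1
theorem ut (k : ι) : R.t (R.u k) = R.b k := (R.ex k).choose_spec.2

theorem NN {g h : Γ} (hg : S.A g = 1) (hh : S.A h = 1) : (R.A g - 1) * (R.A h - 1) = 0 := by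
  refine R.b.ext fun k => ?_
  rw [← R.ut, End.mul_apply, ← R.t_comm h (R.uA k), ← R.t_comm g (R.A_comm1 h (R.uA k)),
    S.comm hg (S.A_comm2 _ hh)]
  simp [R.t_one]

theorem NNv {g h : Γ} (hg : S.A g = 1) (hh : S.A h = 1) (v : V) :
    R.A g (R.A h v) = R.A g v + R.A h v - v := by
  have := LinearMap.congr_fun (R.NN S hg hh) v
  simp only [End.mul_apply, LinearMap.sub_apply, End.one_apply, map_sub, LinearMap.zero_apply]
    at this
  linear_combination (norm := module) this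

noncomputable def l (g : Γ) : End ℝ V × V :=
  (R.A g - 1, R.t g - (1 / 2 : ℝ) • (R.A g - 1) (R.t g))

theorem l_add {g h : Γ} (hg : S.A g = 1) (hh : S.A h = 1) : R.l (g * h) = R.l g + R.l h := by
  have e : R.t g + R.A g (R.t h) = R.t h + R.A h (R.t g) := by
    rw [← R.t_mul, ← R.t_mul, S.comm hg hh]
  refine Prod.ext (LinearMap.ext fun v => ?_) ?_
  · simp [l, R.NNv S hg hh]
    abel
  · simp only [l, Prod.snd_add, R.t_mul, map_mul, LinearMap.sub_apply, End.one_apply,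
      End.mul_apply, map_add, map_sub, R.NNv S hg hh, R.NNv S hh hg, R.NNv S hg hg]
    linear_combination (norm := module) (1 / 2 : ℝ) • e

noncomputable def lam : V →ₗ[ℝ] End ℝ V × V := S.b.constr ℝ fun k => R.l (S.u k)

theorem lam_t {g : Γ} (hg : S.A g = 1) : R.lam S (S.t g) = R.l g := by
  have h1 : R.l 1 = 0 := by simp [l, R.t_one]
  have : ∀ w ∈ Submodule.span ℤ (Set.range S.b), ∀ g, S.A g = 1 → S.t g = w →
      R.lam S w = R.l g := by
    intro w hw
    rw [← Submodule.mem_toAddSubgroup, Submodule.span_int_eq_addSubgroupClosure] at hw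
    induction hw using AddSubgroup.closure_induction with
    | mem x hx =>
      obtain ⟨k, rfl⟩ := hx
      intro g a c
      rw [S.inj g (S.u k) (a.trans (S.uA k).symm) (c.trans (S.ut k).symm)]
      simp [lam]
    | zero =>
      intro g a c
      rw [S.inj g 1 (by simpa using a) (c.trans S.t_one.symm), map_zero, h1]
    | add x y hx hy a c =>
      rw [← Submodule.span_int_eq_addSubgroupClosure] at hx hy
      obtain ⟨g1, a1, rfl⟩ := (S.lat _).2 hx
      obtain ⟨g2, a2, rfl⟩ := (S.lat _).2 hy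
      intro g d e
      rw [S.inj g (g1 * g2) (by simp [d, a1, a2]) (by rw [e, S.t_add a1]), map_add, a _ a1 rfl,
        c _ a2 rfl, R.l_add S a1 a2]
    | neg x hx a =>
      intro g d e
      rw [map_neg, a g⁻¹ (S.A_inv d) (by rw [S.t_inv d, e, neg_neg]), neg_eq_iff_add_eq_zero,
        ← R.l_add S (S.A_inv d) d, inv_mul_cancel, h1]
  exact this _ ((S.lat _).1 ⟨g, hg, rfl⟩) g hg rfl

end Rl

noncomputable def br : (End ℝ V × V) →ₗ[ℝ] (End ℝ V × V) →ₗ[ℝ] (End ℝ V × V) :=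
  LinearMap.mk₂ ℝ (fun x y => (x.1 * y.1 - y.1 * x.1, x.1 y.2 - y.1 x.2))
    (fun x y z => by ext <;> simp [add_mul, mul_add] <;> abel)
    (fun c x y => by ext <;> simp [smul_sub])
    (fun x y z => by ext <;> simp [add_mul, mul_add] <;> abel)
    (fun c x y => by ext <;> simp [smul_sub])

theorem br_apply (x y : End ℝ V × V) :
    br x y = (x.1 * y.1 - y.1 * x.1, x.1 y.2 - y.1 x.2) := rfl

namespace Rl

variable (R S T : Rl Γ V ι B)

theorem l_comm {g h : Γ} (hg : S.A g = 1) (hh : T.A h = 1) :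
    R.l (g * h * g⁻¹ * h⁻¹) = br (R.l g) (R.l h) := by
  have c1 := S.A_comm2 h hg
  have c2 := T.A_comm1 g hh
  obtain ⟨c, hc⟩ : ∃ c, c = g * h * g⁻¹ * h⁻¹ := ⟨_, rfl⟩
  rw [← hc] at c1 c2 ⊢
  have e : g * h = c * (h * g) := by rw [hc]; group
  have e1 : ∀ v, R.A c v = R.A g (R.A h v) - R.A h (R.A g v) + v := by
    intro v
    have := LinearMap.congr_fun (congrArg R.A e) v
    simp only [map_mul, End.mul_apply, R.NNv T c2 hh, R.NNv S c1 hg] at this
    linear_combination (norm := module) -this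
  have e2 := congrArg R.t e
  have e3 := congrArg R.t (S.comm c1 hg)
  have e4 := congrArg R.t (T.comm c2 hh)
  simp only [R.t_mul, map_add, R.NNv T c2 hh] at e2 e3 e4
  have f1 := congrArg (R.A g) e2
  have f2 := congrArg (R.A h) e2
  have f3 := congrArg (R.A c) e2
  simp only [map_add, map_sub, R.NNv T c2 hh, R.NNv S c1 hg, R.NNv T hh c2, R.NNv S hg c1,
    R.NNv S hg hg, R.NNv T hh hh, R.NNv T c2 c2] at f1 f2 f3
  refine Prod.ext (LinearMap.ext fun v => ?_) ?_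
  · simp [l, br_apply, e1]
    abel
  · simp only [l, br_apply, LinearMap.sub_apply, End.one_apply, map_sub, map_smul]
    linear_combination (norm := module) (1 / 2 : ℝ) • f1 + (1 / 2 : ℝ) • f2 + (1 / 2 : ℝ) • f3
      - (5 / 2 : ℝ) • e2 - (1 / 2 : ℝ) • e3 - (1 / 2 : ℝ) • e4 - (1 / 2 : ℝ) • e1 (R.t g)
      - (1 / 2 : ℝ) • e1 (R.t h)

theorem lam_br (v w : V) : br (R.lam S v) (R.lam T w) = R.lam T ((T.lam S v).1 w) := by
  have : (br.compl₁₂ (R.lam S) (R.lam T)) =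
      (LinearMap.llcomp ℝ V V _ (R.lam T)) ∘ₗ LinearMap.fst ℝ _ _ ∘ₗ T.lam S := by
    refine S.b.ext fun k => T.b.ext fun m => ?_
    rw [← S.ut, ← T.ut]
    simp only [LinearMap.compl₁₂_apply, LinearMap.comp_apply, LinearMap.llcomp_apply,
      LinearMap.fst_apply, lam_t _ _ (S.uA k), lam_t _ _ (T.uA m)]
    rw [← R.l_comm S T (S.uA k) (T.uA m), ← R.lam_t T (T.A_comm1 _ (T.uA m)), T.t_comm _ (T.uA m)]
    rfl
  exact LinearMap.congr_fun (LinearMap.congr_fun this v) w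

theorem lam_self (v : V) : R.lam R v = (0, v) := by
  have : R.lam R = LinearMap.inr ℝ _ _ := R.b.ext fun k => by
    rw [← R.ut, lam_t _ _ (R.uA k)]
    simp [l, R.uA]
  rw [this]
  rfl

theorem skew (v a c : V) : B ((R.lam S v).1 a) c + B a ((R.lam S v).1 c) = 0 := by
  have : (B.flip c) ∘ₗ LinearMap.applyₗ a ∘ₗ LinearMap.fst ℝ _ _ ∘ₗ R.lam S +
      (B a) ∘ₗ LinearMap.applyₗ c ∘ₗ LinearMap.fst ℝ _ _ ∘ₗ R.lam S = 0 := by
    refine S.b.ext fun k => ?_
    have h1 := R.orth (S.u k) a c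
    have h2 := R.orth (S.u k) (R.A (S.u k) a) (R.A (S.u k) c)
    rw [R.NNv S (S.uA k) (S.uA k), R.NNv S (S.uA k) (S.uA k)] at h2
    rw [← S.ut]
    simp only [LinearMap.add_apply, LinearMap.comp_apply, lam_t _ _ (S.uA k), l,
      LinearMap.fst_apply, LinearMap.applyₗ_apply_apply, LinearMap.flip_apply, map_sub, map_add,
      LinearMap.sub_apply, End.one_apply, LinearMap.zero_apply] at h2 ⊢
    linarith
  exact LinearMap.congr_fun this v

theorem lam_inj [Finite ι] : Function.Injective (R.lam S) := by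
  classical
  have := Fintype.ofFinite ι
  let G : Submodule ℤ V := Submodule.span ℤ (Set.range S.b)
  let G0 : Submodule ℤ V := G ⊓ (LinearMap.ker (LinearMap.fst ℝ _ _ ∘ₗ R.lam S)).restrictScalars ℤ
  have h0 : ∀ w ∈ G0, ∃ g, S.A g = 1 ∧ R.A g = 1 ∧ S.t g = w ∧ (R.lam S w).2 = R.t g := by
    rintro w ⟨a, c⟩
    obtain ⟨g, d, rfl⟩ := (S.lat _).2 a
    have c : (R.lam S (S.t g)).1 = 0 := c
    rw [lam_t _ _ d] at c ⊢
    have c : R.A g = 1 := sub_eq_zero.1 c
    exact ⟨g, d, c, rfl, by simp [l, c]⟩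
  let F : V →ₗ[ℝ] (ι → V) :=
    LinearMap.pi fun k => LinearMap.applyₗ (R.b k) ∘ₗ LinearMap.fst ℝ _ _ ∘ₗ R.lam S
  obtain ⟨T1, h1⟩ := ext_lin (Pi.basis fun _ : ι => R.b)
    (F.toAddMonoidHom.comp G.subtype.toAddMonoidHom)
    ((Submodule.span ℝ (G0 : Set V)).mkQ.toAddMonoidHom.comp G.subtype.toAddMonoidHom)
    (by
      rintro ⟨w, a⟩
      obtain ⟨g, d, rfl⟩ := (S.lat _).2 a
      rw [Basis.mem_span_iff_repr_mem]
      intro k
      rw [Pi.basis_repr]
      refine (Basis.mem_span_iff_repr_mem _ _ _).1 ((R.lat _).1 ⟨_, R.A_comm1 g (R.uA k.1), ?_⟩) _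
      rw [R.t_comm _ (R.uA _), R.ut]
      simp [F, lam_t _ _ d, l])
    (by
      rintro ⟨w, a⟩ h
      refine (Submodule.Quotient.mk_eq_zero _).2 (Submodule.subset_span ⟨a, ?_⟩)
      exact R.b.ext fun k => congrFun h k)
  obtain ⟨T2, h2⟩ := ext_lin R.b
    ((LinearMap.snd ℝ _ _ ∘ₗ R.lam S).toAddMonoidHom.comp G0.subtype.toAddMonoidHom)
    G0.subtype.toAddMonoidHom
    (by
      rintro ⟨w, a⟩
      obtain ⟨g, -, c, -, e⟩ := h0 w a
      exact (R.lat _).1 ⟨g, c, e.symm⟩)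
    (by
      rintro ⟨w, a⟩ h
      obtain ⟨g, -, c, d, e⟩ := h0 w a
      rw [R.inj g 1 (by simpa using c) ((e.symm.trans h).trans R.t_one.symm), S.t_one] at d
      exact d.symm)
  have k1 : T1 ∘ₗ F = (Submodule.span ℝ (G0 : Set V)).mkQ :=
    S.b.ext fun k => h1 ⟨S.b k, Submodule.subset_span ⟨k, rfl⟩⟩
  refine LinearMap.ker_eq_bot.1 (LinearMap.ker_eq_bot'.2 fun v hv => ?_)
  have k2 : v ∈ Submodule.span ℝ (G0 : Set V) := by
    rw [← Submodule.Quotient.mk_eq_zero, ← Submodule.mkQ_apply, ← k1, LinearMap.comp_apply,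
      show F v = 0 from funext fun k => by simp [F, hv], map_zero]
  have k3 := LinearMap.eqOn_span (f := T2 ∘ₗ LinearMap.snd ℝ _ _ ∘ₗ R.lam S) (g := LinearMap.id)
    (s := (G0 : Set V)) (fun w a => h2 ⟨w, a⟩) k2
  simpa [hv] using k3.symm

end Rl

end Pool.Agent.H.MP_908eba_al
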