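import Mathlib
import Pool.Agent.H.MP_908eba_al.B

set_option autoImplicit false

namespace Pool.Agent.H.MP_908eba_al

open Module

variable {Γ V ι : Type} [Group Γ] [AddCommGroup V] [Module ℝ V] {B : V →ₗ[ℝ] V →ₗ[ℝ] ℝ}

theorem br_anti (x y : End ℝ V × V) : br x y = -br y x := by
  simp [br_apply]

theorem fin_lat [FiniteDimensional ℝ V] [Finite ι] (hB : ∀ v, (∀ w, B v w = 0) → v = 0)
    (hs : ∀ v w, B v w = B w v) (I : Type) (R : I → Rl Γ V ι B)
    (hR : ∀ i j, (∀ g, (R i).A g = 1 ↔ (R j).A g = 1) → i = j) : Finite I := by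
  rcases isEmpty_or_nonempty I with h | ⟨⟨o⟩⟩
  · infer_instance
  let π : I → (I →₀ V) →ₗ[ℝ] End ℝ V × V := fun i => Finsupp.lsum ℝ fun j => (R i).lam (R j)
  have π1 : ∀ i j v, π i (Finsupp.single j v) = (R i).lam (R j) v := fun i j v => by simp [π]
  have K : ∀ i j x w, br (π i x) ((R i).lam (R j) w) = (R i).lam (R j) ((π j x).1 w) := by
    intro i j x w
    induction x using Finsupp.induction_linear with
    | zero => simp
    | add x y a c => simp [a, c]
    | single k v => rw [π1, π1, Rl.lam_br]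
  have Z : ∀ z, π o z = 0 → ∀ j, (π j z).1 = 0 := fun z hz j => LinearMap.ext fun w =>
    (R o).lam_inj (R j) (by rw [← K, hz]; simp)
  have C : ∀ z, π o z = 0 → ∀ i y, br (π i z) (π i y) = 0 := by
    intro z hz i y
    induction y using Finsupp.induction_linear with
    | zero => simp
    | add x y a c => simp [a, c]
    | single k v => rw [π1, K, Z z hz]; simp
  have sk : ∀ i x a c, B ((π i x).1 a) c + B a ((π i x).1 c) = 0 := by
    intro i x a c
    induction x using Finsupp.induction_linear with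
    | zero => simp
    | add x y e f =>
      simp only [map_add, Prod.fst_add, LinearMap.add_apply]
      linarith
    | single k v => rw [π1, Rl.skew]
  obtain ⟨s, hs'⟩ := (π o).rangeRestrict.exists_rightInverse_of_surjective
    (LinearMap.range_rangeRestrict _)
  obtain ⟨σ, hσ⟩ := LinearMap.exists_extend s
  have hz : ∀ j v, ∃ z, π o z = 0 ∧ σ ((R o).lam (R j) v) = Finsupp.single j v + z := by
    intro j v
    refine ⟨σ ((R o).lam (R j) v) - Finsupp.single j v, ?_, by simp⟩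
    have a := LinearMap.congr_fun hσ ⟨_, Finsupp.single j v, π1 o j v⟩
    have c := congrArg Subtype.val (LinearMap.congr_fun hs' ⟨_, Finsupp.single j v, π1 o j v⟩)
    rw [map_sub, π1, sub_eq_zero]
    exact (congrArg (π o) a).trans c
  have hr : ∀ i, ∃ r : (End ℝ V × V) →ₗ[ℝ] (End ℝ V × V), (∀ e, (π i (σ (r e))).1 = 0) ∧
      ∀ e, (π i (σ e)).1 = 0 → r e = e := by
    intro i
    obtain ⟨g, hg⟩ := LinearMap.exists_leftInverse_of_injective
      (LinearMap.ker (LinearMap.fst ℝ _ _ ∘ₗ π i ∘ₗ σ)).subtype (Submodule.ker_subtype _)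
    exact ⟨Submodule.subtype _ ∘ₗ g, fun e => (g e).2, fun e he =>
      congrArg Subtype.val (LinearMap.congr_fun hg ⟨e, he⟩)⟩
  choose r r1 r2 using hr
  let Ξ : I → ((V →ₗ[ℝ] End ℝ V × V) × ℝ) →ₗ[ℝ] (V →ₗ[ℝ] End ℝ V × V) →ₗ[ℝ]
      ((V →ₗ[ℝ] V →ₗ[ℝ] End ℝ V × V) × (V →ₗ[ℝ] End ℝ V × V)) := fun i =>
    LinearMap.mk₂ ℝ (fun p δ => (br.compl₁₂ (π i ∘ₗ σ ∘ₗ r i ∘ₗ p.1) (π i ∘ₗ σ ∘ₗ δ) +
        br.compl₁₂ (π i ∘ₗ σ ∘ₗ δ) (π i ∘ₗ σ ∘ₗ p.1), p.2 • (r i ∘ₗ δ)))
      (fun p q δ => Prod.ext (LinearMap.ext₂ fun a c => by simp; abel) (by simp [add_smul]))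
      (fun c p δ => Prod.ext (LinearMap.ext₂ fun a c => by simp) (by simp [mul_smul]))
      (fun p δ ε => Prod.ext (LinearMap.ext₂ fun a c => by simp; abel)
        (by simp [LinearMap.comp_add]))
      (fun c p δ => Prod.ext (LinearMap.ext₂ fun a c => by simp)
        (by simp [LinearMap.comp_smul, smul_comm c]))
  have hΞ : ∀ i j δ, Ξ i ((R o).lam (R j), 1) δ = 0 ↔ (∀ a c,
      br (π i (σ (r i ((R o).lam (R j) a)))) (π i (σ (δ c))) +
      br (π i (σ (δ a))) (π i (σ ((R o).lam (R j) c))) = 0) ∧ ∀ a, r i (δ a) = 0 := by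
    intro i j δ
    rw [Prod.ext_iff]
    simp [Ξ, LinearMap.ext_iff]
  refine fin_of_rigid (M := V →ₗ[ℝ] End ℝ V × V)
    (M' := (V →ₗ[ℝ] V →ₗ[ℝ] End ℝ V × V) × (V →ₗ[ℝ] End ℝ V × V)) Ξ
    (fun j => ((R o).lam (R j), (1 : ℝ))) (fun i => ?_) fun i j hij hinj => ?_
  · refine (injective_iff_map_eq_zero _).2 fun δ hδ => ?_
    obtain ⟨h1, h2⟩ := (hΞ i i δ).1 hδ
    have h3 : ∀ a c, (π i (σ (δ a))).1 c = (π i (σ (δ c))).1 a := by
      intro a c
      have := h1 a c
      obtain ⟨z, z1, z2⟩ := hz i a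
      obtain ⟨y, y1, y2⟩ := hz i c
      rw [r2 i _ (by rw [z2, map_add, π1, Rl.lam_self, Prod.fst_add, Z z z1]; simp), z2, y2,
        map_add, map_add, map_add, LinearMap.add_apply, map_add, C z z1, br_anti _ (π i y), C y y1,
        π1, π1, br_anti ((R i).lam _ a), K, K, Rl.lam_self, Rl.lam_self] at this
      exact (neg_add_eq_zero.1 (by simpa using congrArg Prod.snd this)).symm
    refine LinearMap.ext fun a => ?_
    rw [← r2 i (δ a) (LinearMap.ext fun c => hB _ fun d => ?_), h2, LinearMap.zero_apply]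
    have e1 := sk i (σ (δ a)) c d
    have e2 := sk i (σ (δ c)) d a
    have e3 := sk i (σ (δ d)) a c
    rw [hs c, h3 a d] at e1
    rw [hs d, h3 c a, h3 c d] at e2
    rw [hs a] at e3
    linarith
  · have h1 : Ξ i ((R o).lam (R j), 1) ((R o).lam (R j) - r i ∘ₗ (R o).lam (R j)) = 0 := by
      refine (hΞ i j _).2 ⟨fun a c => ?_, fun a => by simp [r2 i _ (r1 i _)]⟩
      have e1 : br (π i (σ (r i ((R o).lam (R j) a)))) (π i (σ (r i ((R o).lam (R j) c)))) = 0 := by
        simp [br_apply, r1]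
      have e2 : br (π i (σ ((R o).lam (R j) a))) (π i (σ ((R o).lam (R j) c))) = 0 := by
        obtain ⟨z, z1, z2⟩ := hz j a
        obtain ⟨y, y1, y2⟩ := hz j c
        rw [z2, map_add, map_add, LinearMap.add_apply, C z z1, y2, map_add, map_add,
          br_anti _ (π i y), C y y1, π1, π1, Rl.lam_br, Rl.lam_self]
        simp
      simp [e1, e2]
    have h2 := hinj (h1.trans (map_zero _).symm)
    have h3 : ∀ g, (R j).A g = 1 → (R i).A g = 1 := by
      intro g hg
      obtain ⟨z, z1, z2⟩ := hz j ((R j).t g)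
      have a := r1 i ((R o).lam (R j) ((R j).t g))
      rw [show r i ((R o).lam (R j) ((R j).t g)) = (R o).lam (R j) ((R j).t g) from
        (sub_eq_zero.1 (LinearMap.congr_fun h2 _)).symm, z2, map_add, π1, Prod.fst_add, Z z z1,
        add_zero, Rl.lam_t _ _ hg] at a
      exact sub_eq_zero.1 a
    refine hij (hR i j fun g => ⟨fun hg => (R j).b.ext fun k => ?_, h3 g⟩)
    rw [← (R j).ut, ← (R j).t_conj g ((R j).uA k), (R i).comm hg (h3 _ ((R j).uA k))]
    simp

end Pool.Agent.H.MP_908eba_al
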